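import Mathlib

/-! The spherical growth function of the first Grigorchuk group is equivalent to its growth
function. Letters: `false` is 0 and `true` is 1. -/

namespace Pool.Agent.Results.MP_03d093_al.SphereGrowth

/-- The map `a` on words: flip the first letter. -/
def fa : List Bool → List Bool
  | [] => []
  | x :: w => (!x) :: w

/-- The maps `b, c, d` on words, for the index `0, 1, 2`. -/
def fg : List Bool → Fin 3 → List Bool
  | [], _ => []
  | false :: w, i => false :: (if i = 2 then w else fa w)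
  | true :: w, i => true :: fg w (i + 1)

lemma fa_inv : Function.Involutive fa := by
  intro w; cases w <;> simp [fa]

lemma fg_inv (i : Fin 3) : Function.Involutive (fun w => fg w i) := by
  intro w
  induction w generalizing i with
  | nil => simp [fg]
  | cons x w ih =>
    cases x
    · by_cases h : i = 2 <;> simp [fg, h, fa_inv w]
    · simpa [fg] using ih (i + 1)

/-- The generator `a`. -/
def ga : Equiv.Perm (List Bool) := fa_inv.toPerm fa

/-- The generators `b, c, d`. -/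
def gg (i : Fin 3) : Equiv.Perm (List Bool) := (fg_inv i).toPerm _

/-- The generating set `{a, b, c, d}`. -/
def gens : Set (Equiv.Perm (List Bool)) := {ga, gg 0, gg 1, gg 2}

/-- The first Grigorchuk group. -/
def grig : Subgroup (Equiv.Perm (List Bool)) := Subgroup.closure gens

/-- Word length with respect to `{a, b, c, d}`. -/
noncomputable def wordLen (g : Equiv.Perm (List Bool)) : ℕ :=
  sInf {n | ∃ l : List (Equiv.Perm (List Bool)), l.length = n ∧ (∀ s ∈ l, s ∈ gens) ∧ l.prod = g}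

/-- The growth function. -/
noncomputable def ballGrowth (n : ℕ) : ℕ := {g | g ∈ grig ∧ wordLen g ≤ n}.ncard

/-- The spherical growth function. -/
noncomputable def sphereGrowth (n : ℕ) : ℕ := {g | g ∈ grig ∧ wordLen g = n}.ncard

/-- The relation `f ⪯ h`. -/
def GrowthLe (f h : ℕ → ℕ) : Prop := ∃ C : ℕ, 1 ≤ C ∧ ∀ n, 1 ≤ n → f n ≤ h (C * n)

/-- products of at most `n` generators -/
def W (n : ℕ) : Set (Equiv.Perm (List Bool)) :=
  {g | ∃ l : List (Equiv.Perm (List Bool)), l.length ≤ n ∧ (∀ s ∈ l, s ∈ gens) ∧ l.prod = g}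

lemma aa : ga * ga = 1 := Equiv.ext fa_inv

lemma gg2 (i : Fin 3) : gg i * gg i = 1 := Equiv.ext (fg_inv i)

lemma gens_inv {s : Equiv.Perm (List Bool)} (hs : s ∈ gens) : s⁻¹ = s := by
  rcases hs with rfl | rfl | rfl | rfl
  · exact inv_eq_of_mul_eq_one_right aa
  all_goals exact inv_eq_of_mul_eq_one_right (gg2 _)

lemma W_one (n : ℕ) : 1 ∈ W n := ⟨[], by simp, by simp, rfl⟩

lemma W_gen {s : Equiv.Perm (List Bool)} (hs : s ∈ gens) : s ∈ W 1 :=
  ⟨[s], by simp, by simpa using hs, by simp⟩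

lemma W_mono {m n : ℕ} (h : m ≤ n) : W m ⊆ W n :=
  fun _ ⟨l, h1, h2⟩ => ⟨l, h1.trans h, h2⟩

lemma W_mul {m n : ℕ} {g h : Equiv.Perm (List Bool)} (hg : g ∈ W m) (hh : h ∈ W n) :
    g * h ∈ W (m + n) := by
  obtain ⟨l, h1, h2, rfl⟩ := hg
  obtain ⟨k, h3, h4, rfl⟩ := hh
  refine ⟨l ++ k, by simp; omega, fun s hs => ?_, by simp⟩
  rcases List.mem_append.1 hs with h | h
  · exact h2 s h
  · exact h4 s h

lemma W_succ {n : ℕ} {g : Equiv.Perm (List Bool)} (hg : g ∈ W (n + 1)) :
    g = 1 ∨ ∃ s ∈ gens, ∃ h ∈ W n, g = s * h := by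
  obtain ⟨l, h1, h2, rfl⟩ := hg
  cases l with
  | nil => left; rfl
  | cons s l =>
    right
    exact ⟨s, h2 s (by simp), l.prod, ⟨l, by simpa using h1, fun t ht => h2 t (by simp [ht]), rfl⟩,
      by simp⟩

lemma W_zero {g : Equiv.Perm (List Bool)} (hg : g ∈ W 0) : g = 1 := by
  obtain ⟨l, h1, -, rfl⟩ := hg
  rw [List.length_eq_zero_iff.1 (Nat.le_zero.1 h1)]; rfl

lemma W_inv {n : ℕ} {g : Equiv.Perm (List Bool)} (hg : g ∈ W n) : g⁻¹ ∈ W n := by
  induction n generalizing g with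
  | zero => rw [W_zero hg]; exact W_one 0
  | succ n ih =>
    rcases W_succ hg with rfl | ⟨s, hs, h, hh, rfl⟩
    · exact W_one _
    · rw [mul_inv_rev, gens_inv hs]; exact W_mul (ih hh) (W_gen hs)

lemma W_fin (n : ℕ) : (W n).Finite := by
  induction n with
  | zero => exact (Set.finite_singleton 1).subset (fun g hg => W_zero hg)
  | succ n ih =>
    have hf : gens.Finite := by unfold gens; exact Set.toFinite _
    refine ((hf.image2 (· * ·) ih).insert 1).subset (fun g hg => ?_)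
    rcases W_succ hg with rfl | ⟨s, hs, h, hh, rfl⟩
    · exact Or.inl rfl
    · exact Or.inr ⟨s, hs, h, hh, rfl⟩

lemma W_nil {n : ℕ} {g : Equiv.Perm (List Bool)} (hg : g ∈ W n) : g [] = [] := by
  induction n generalizing g with
  | zero => rw [W_zero hg]; rfl
  | succ n ih =>
    rcases W_succ hg with rfl | ⟨s, hs, h, hh, rfl⟩
    · rfl
    · rw [Equiv.Perm.mul_apply, ih hh]
      rcases hs with rfl | rfl | rfl | rfl <;> rfl

lemma mem_grig {g : Equiv.Perm (List Bool)} : g ∈ grig ↔ ∃ n, g ∈ W n := by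
  constructor
  · intro h
    induction h using Subgroup.closure_induction with
    | mem s hs => exact ⟨1, W_gen hs⟩
    | one => exact ⟨0, W_one 0⟩
    | mul a b _ _ ha hb =>
      obtain ⟨m, hm⟩ := ha
      obtain ⟨n, hn⟩ := hb
      exact ⟨_, W_mul hm hn⟩
    | inv a _ ha =>
      obtain ⟨m, hm⟩ := ha
      exact ⟨_, W_inv hm⟩
  · rintro ⟨n, l, -, h2, rfl⟩
    exact Subgroup.list_prod_mem _ (fun s hs => Subgroup.subset_closure (h2 s hs))

lemma mem_W {n : ℕ} {g : Equiv.Perm (List Bool)} : g ∈ W n ↔ g ∈ grig ∧ wordLen g ≤ n := by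
  constructor
  · intro h
    refine ⟨mem_grig.2 ⟨n, h⟩, ?_⟩
    obtain ⟨l, h1, h2⟩ := h
    unfold wordLen
    exact le_trans (Nat.sInf_le (by exact ⟨l, rfl, h2⟩)) h1
  · rintro ⟨h, h1⟩
    obtain ⟨m, l, -, h2⟩ := mem_grig.1 h
    obtain ⟨k, h3, h4⟩ := Nat.sInf_mem (s := {n | ∃ l : List (Equiv.Perm (List Bool)),
      l.length = n ∧ (∀ s ∈ l, s ∈ gens) ∧ l.prod = g}) ⟨_, l, rfl, h2⟩
    exact ⟨k, h3.le.trans h1, h4⟩

lemma ball_eq (n : ℕ) : ballGrowth n = (W n).ncard := by
  unfold ballGrowth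
  congr 1
  ext g
  exact mem_W.symm

/-- `x` fixes the first letter and has sections `u` and `v` -/
def Sec (x u v : Equiv.Perm (List Bool)) : Prop :=
  ∀ w, x (false :: w) = false :: u w ∧ x (true :: w) = true :: v w

lemma Sec.mul {x u v y u' v' : Equiv.Perm (List Bool)} (h : Sec x u v) (h' : Sec y u' v') :
    Sec (x * y) (u * u') (v * v') := fun w => by
  simp [(h' w).1, (h' w).2, (h _).1, (h _).2]

lemma ga_cons (x : Bool) (w : List Bool) : ga (x :: w) = (!x) :: w := rfl

lemma Sec.conj {x u v : Equiv.Perm (List Bool)} (h : Sec x u v) : Sec (ga * x * ga) v u :=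
  fun w => by simp [ga_cons, (h _).1, (h _).2]

lemma sec_b : Sec (gg 0) ga (gg 1) := fun _ => ⟨rfl, rfl⟩
lemma sec_c : Sec (gg 1) ga (gg 2) := fun _ => ⟨rfl, rfl⟩
lemma sec_d : Sec (gg 2) 1 (gg 0) := fun _ => ⟨rfl, rfl⟩

lemma ad4 : ga * gg 2 * ga * gg 2 * (ga * gg 2 * ga * gg 2) = 1 := by
  have h := (sec_d.conj.mul sec_d).mul (sec_d.conj.mul sec_d)
  simp only [mul_one, one_mul, gg2] at h
  ext1 w
  cases w with
  | nil => rfl
  | cons x w =>
    cases x
    · exact (h w).1
    · exact (h w).2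

/-- the dihedral subgroup generated by `a` and `d` -/
def D : Fin 8 → Equiv.Perm (List Bool) :=
  ![1, ga, gg 2, ga * gg 2, gg 2 * ga, ga * gg 2 * ga, gg 2 * ga * gg 2, ga * gg 2 * ga * gg 2]

lemma D_a (i : Fin 8) : ∃ j, ga * D i = D j := by
  fin_cases i
  · exact ⟨1, by simp [D]⟩
  · exact ⟨0, by simp [D, aa]⟩
  · exact ⟨3, by simp [D]⟩
  · exact ⟨2, by simp [D, ← mul_assoc, aa]⟩
  · exact ⟨5, by simp [D, ← mul_assoc]⟩
  · exact ⟨4, by simp [D, ← mul_assoc, aa]⟩
  · exact ⟨7, by simp [D, ← mul_assoc]⟩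
  · exact ⟨6, by simp [D, ← mul_assoc, aa]⟩

lemma dada : gg 2 * ga * gg 2 * ga = ga * gg 2 * ga * gg 2 := by
  have h := eq_inv_of_mul_eq_one_left ad4
  rw [h]
  simp only [mul_inv_rev, inv_eq_of_mul_eq_one_right aa, inv_eq_of_mul_eq_one_right (gg2 2),
    mul_assoc]

lemma D_d (i : Fin 8) : ∃ j, gg 2 * D i = D j := by
  fin_cases i
  · exact ⟨2, by simp [D]⟩
  · exact ⟨4, by simp [D]⟩
  · exact ⟨0, by simp [D, gg2]⟩
  · exact ⟨6, by simp [D, ← mul_assoc]⟩
  · exact ⟨1, by simp [D, ← mul_assoc, gg2]⟩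
  · exact ⟨7, by simp [D, ← mul_assoc, dada]⟩
  · exact ⟨3, by simp [D, ← mul_assoc, gg2]⟩
  · refine ⟨5, ?_⟩
    change gg 2 * (ga * gg 2 * ga * gg 2) = ga * gg 2 * ga
    rw [← dada]
    simp [← mul_assoc, gg2]

lemma lift {n : ℕ} {g : Equiv.Perm (List Bool)} (hg : g ∈ W n) :
    ∃ x ∈ W (3 * n), ∃ i, Sec x (D i) g := by
  induction n generalizing g with
  | zero => rw [W_zero hg]; exact ⟨1, W_one _, 0, fun _ => ⟨rfl, rfl⟩⟩
  | succ n ih =>
    rcases W_succ hg with rfl | ⟨s, hs, h, hh, rfl⟩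
    · exact ⟨1, W_one _, 0, fun _ => ⟨rfl, rfl⟩⟩
    obtain ⟨x, hx, i, hi⟩ := ih hh
    have ha : ga ∈ W 1 := W_gen (by simp [gens])
    have hk : ∀ k, gg k ∈ W 1 := fun k => W_gen (by fin_cases k <;> simp [gens])
    rcases hs with rfl | rfl | rfl | rfl
    · obtain ⟨j, hj⟩ := D_d i
      exact ⟨_, W_mono (by omega) (W_mul (W_mul (W_mul ha (hk 1)) ha) hx), j,
        hj ▸ sec_c.conj.mul hi⟩
    · exact ⟨_, W_mono (by omega) (W_mul (hk 2) hx), i, by simpa using sec_d.mul hi⟩
    · obtain ⟨j, hj⟩ := D_a i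
      exact ⟨_, W_mono (by omega) (W_mul (hk 0) hx), j, hj ▸ sec_b.mul hi⟩
    · obtain ⟨j, hj⟩ := D_a i
      exact ⟨_, W_mono (by omega) (W_mul (hk 1) hx), j, hj ▸ sec_c.mul hi⟩

lemma ball_sq (n : ℕ) : (W n).ncard * (W n).ncard ≤ (W (6 * n + 2)).ncard * 64 := by
  have key : ∀ p : W n × W n, ∃ q : W (6 * n + 2) × Fin 8 × Fin 8,
      Sec q.1.1 (p.1.1 * D q.2.1) (D q.2.2 * p.2.1) := by
    rintro ⟨⟨g, hg⟩, ⟨h, hh⟩⟩
    obtain ⟨x, hx, i, hi⟩ := lift hg
    obtain ⟨y, hy, j, hj⟩ := lift hh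
    have ha : ga ∈ W 1 := W_gen (by simp [gens])
    exact ⟨⟨⟨_, W_mono (by omega) (W_mul (W_mul (W_mul ha hx) ha) hy)⟩, j, i⟩, hi.conj.mul hj⟩
  choose f hf using key
  have hinj : Function.Injective f := by
    intro p q h
    have h1 := hf p
    have h2 := hf q
    rw [h] at h1
    have e1 : p.1.1 * D (f q).2.1 = q.1.1 * D (f q).2.1 :=
      Equiv.ext fun w => List.tail_eq_of_cons_eq ((h1 w).1.symm.trans (h2 w).1)
    have e2 : D (f q).2.2 * p.2.1 = D (f q).2.2 * q.2.1 :=
      Equiv.ext fun w => List.tail_eq_of_cons_eq ((h1 w).2.symm.trans (h2 w).2)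
    exact Prod.ext (Subtype.ext (mul_right_cancel e1)) (Subtype.ext (mul_left_cancel e2))
  have := (W_fin (6 * n + 2)).to_subtype
  have h := Nat.card_le_card_of_injective f hinj
  simpa [Nat.card_prod, Nat.card_coe_set_eq] using h

lemma grig_inf : (grig : Set (Equiv.Perm (List Bool))).Infinite := by
  have key : ∀ k : ℕ, ∃ g, g ∈ grig ∧ (∀ j ≤ k, g (List.replicate j true) = List.replicate j true) ∧
      g (List.replicate (k + 1) true) ≠ List.replicate (k + 1) true := by
    intro k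
    induction k with
    | zero =>
      refine ⟨ga, Subgroup.subset_closure (by simp [gens]), fun j hj => ?_, by simp [ga_cons]⟩
      rw [Nat.le_zero.1 hj]; rfl
    | succ k ih =>
      obtain ⟨g, hg, h1, h2⟩ := ih
      obtain ⟨n, hn⟩ := mem_grig.1 hg
      obtain ⟨x, hx, i, hi⟩ := lift hn
      refine ⟨x, mem_grig.2 ⟨_, hx⟩, fun j hj => ?_, ?_⟩
      · cases j with
        | zero => exact W_nil hx
        | succ j => rw [List.replicate_succ, (hi _).2, h1 j (by omega)]
      · rw [List.replicate_succ, (hi _).2]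
        exact fun e => h2 (List.tail_eq_of_cons_eq e)
  choose g hg h1 h2 using key
  refine Set.infinite_of_injective_forall_mem (f := g) (fun i j e => ?_) hg
  rcases lt_trichotomy i j with h | h | h
  · exact (h2 i (e ▸ h1 j (i + 1) h)).elim
  · exact h
  · exact (h2 j (e ▸ h1 i (j + 1) h)).elim

lemma W_strict (n : ℕ) : ∃ h ∈ W (n + 1), h ∉ W n := by
  by_contra hc
  push Not at hc
  have : ∀ m, W m ⊆ W n := by
    intro m
    induction m with
    | zero => exact W_mono (Nat.zero_le _)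
    | succ m ih =>
      intro g hg
      rcases W_succ hg with rfl | ⟨s, hs, h, hh, rfl⟩
      · exact W_one _
      · exact hc _ (W_mono (by omega) (W_mul (W_gen hs) (ih hh)))
  exact grig_inf ((W_fin n).subset (fun g hg => (mem_grig.1 hg).elim (fun m hm => this m hm)))

lemma ball_ge (n : ℕ) : n + 1 ≤ (W n).ncard := by
  induction n with
  | zero => exact (Set.ncard_pos (W_fin 0)).2 ⟨1, W_one 0⟩
  | succ n ih =>
    obtain ⟨h, h1, h2⟩ := W_strict n
    have : (W n).ncard < (W (n + 1)).ncard :=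
      Set.ncard_lt_ncard ⟨W_mono (by omega), fun hs => h2 (hs h1)⟩ (W_fin _)
    omega

lemma ball_le_sphere (N : ℕ) : (W N).ncard ≤ sphereGrowth N * (2 * N + 2) := by
  obtain ⟨h, ⟨l, hl, hs, rfl⟩, h2⟩ := W_strict (2 * N)
  have key : ∀ g : W N, ∃ j : Fin (2 * N + 2),
      g.1 * (l.take j).prod ∈ {g | g ∈ grig ∧ wordLen g = N} := by
    rintro ⟨g, hg⟩
    classical
    have hex : ∃ j, g * (l.take (j + 1)).prod ∉ W N := by
      refine ⟨l.length, fun hm => h2 ?_⟩
      rw [List.take_of_length_le (by omega)] at hm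
      have := W_mul (W_inv hg) hm
      rwa [inv_mul_cancel_left, ← two_mul] at this
    have hj := Nat.find_spec hex
    have hin : g * (l.take (Nat.find hex)).prod ∈ W N := by
      rcases h0 : Nat.find hex with _ | k
      · simpa using hg
      · have := Nat.find_min hex (m := k) (by omega)
        simpa using this
    have hlt : Nat.find hex < l.length := by
      by_contra hge
      apply hj
      rw [List.take_of_length_le (by omega)] at hin ⊢
      exact hin
    refine ⟨⟨Nat.find hex, by omega⟩, (mem_W.1 hin).1, le_antisymm (mem_W.1 hin).2 ?_⟩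
    by_contra hc
    apply hj
    rw [List.prod_take_succ _ _ hlt, ← mul_assoc]
    have h3 : g * (l.take (Nat.find hex)).prod ∈ W (N - 1) :=
      mem_W.2 ⟨(mem_W.1 hin).1, by simp only at hc; omega⟩
    exact W_mono (by simp only at hc; omega) (W_mul h3 (W_gen (hs _ (List.getElem_mem hlt))))
  choose f hf using key
  have hfin : {g | g ∈ grig ∧ wordLen g = N}.Finite :=
    (W_fin N).subset (fun g hg => mem_W.2 ⟨hg.1, hg.2.le⟩)
  have := hfin.to_subtype
  let F : W N → {g | g ∈ grig ∧ wordLen g = N} × Fin (2 * N + 2) := fun g => (⟨_, hf g⟩, f g)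
  have hinj : Function.Injective F := by
    intro p q e
    have e2 : f p = f q := congrArg Prod.snd e
    have e1 : p.1 * (l.take (f p)).prod = q.1 * (l.take (f q)).prod :=
      congrArg (fun z => z.1.1) e
    rw [e2] at e1
    exact Subtype.ext (mul_right_cancel e1)
  have h := Nat.card_le_card_of_injective F hinj
  simpa [Nat.card_prod, Nat.card_coe_set_eq, sphereGrowth] using h

theorem result : GrowthLe sphereGrowth ballGrowth ∧ GrowthLe ballGrowth sphereGrowth := by
  constructor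
  · refine ⟨1, le_rfl, fun n _ => ?_⟩
    rw [one_mul, ball_eq]
    exact Set.ncard_le_ncard (fun g hg => mem_W.2 ⟨hg.1, hg.2.le⟩) (W_fin n)
  · refine ⟨64 * 8192, by norm_num, fun n hn => ?_⟩
    rw [ball_eq, mul_assoc]
    set m := 8192 * n with hm
    have mono : ∀ a b, a ≤ b → (W a).ncard ≤ (W b).ncard := fun a b h =>
      Set.ncard_le_ncard (W_mono h) (W_fin b)
    have h1 := (ball_sq m).trans (Nat.mul_le_mul_right 64 (mono _ (8 * m) (by omega)))
    have h2 := (ball_sq (8 * m)).trans (Nat.mul_le_mul_right 64 (mono _ (64 * m) (by omega)))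
    have h3 := ball_le_sphere (64 * m)
    have h4 := ball_ge m
    have h5 := mono n m (by omega)
    generalize (W m).ncard = A at *
    generalize (W (8 * m)).ncard = B at *
    generalize (W (64 * m)).ncard = C at *
    generalize sphereGrowth (64 * m) = s at *
    generalize (W n).ncard = g at *
    have hm' : 8192 ≤ m := by omega
    have e1 : A * A * (A * A) ≤ C * 64 * (64 * 64) := by
      calc A * A * (A * A) ≤ B * 64 * (B * 64) := Nat.mul_le_mul h1 h1
        _ = B * B * (64 * 64) := by ring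
        _ ≤ C * 64 * (64 * 64) := Nat.mul_le_mul_right _ h2
    have e2 : (2 * (64 * m) + 2) * (64 * (64 * 64)) ≤ A * A * A := by
      calc (2 * (64 * m) + 2) * (64 * (64 * 64)) ≤ (m + 1) * 8192 * 8192 := by omega
        _ ≤ A * A * A := Nat.mul_le_mul (Nat.mul_le_mul h4 (by omega)) (by omega)
    have e3 : g * ((2 * (64 * m) + 2) * (64 * (64 * 64))) ≤
        s * ((2 * (64 * m) + 2) * (64 * (64 * 64))) := by
      calc _ ≤ A * (A * A * A) := Nat.mul_le_mul h5 e2
        _ = A * A * (A * A) := by ring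
        _ ≤ C * 64 * (64 * 64) := e1
        _ ≤ s * (2 * (64 * m) + 2) * 64 * (64 * 64) :=
          Nat.mul_le_mul_right _ (Nat.mul_le_mul_right _ h3)
        _ = _ := by ring
    exact Nat.le_of_mul_le_mul_right e3 (by positivity)

end Pool.Agent.Results.MP_03d093_al.SphereGrowth
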